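import Mathlib
import Pool.Agent.Q176.OmegaStar

/-!
# `FMQ(Y, A, 𝒟_Y)` is `k₂`-Hausdorff (MP_a8a70f_gt)

For every compact Hausdorff space `Y` without isolated points and every nonempty closed
`A ⊆ Y`; in particular for `Y = ω*` and `A` finite and nonempty.
-/

namespace Pool.Agent.Results.MP_a8a70f_gt.K2Hausdorff

open Set Topology Filter Q176.OmegaStar

universe u v

/-- the equivalence relation which collapses `A` to a point -/
def collapse {Y : Type u} (A : Set Y) : Setoid Y where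
  r x y := x = y ∨ (x ∈ A ∧ y ∈ A)
  iseqv := by
    refine ⟨fun x => Or.inl rfl, ?_, ?_⟩
    · rintro x y (h | h)
      · exact Or.inl h.symm
      · exact Or.inr ⟨h.2, h.1⟩
    · rintro x y z (rfl | h) (rfl | h')
      · exact Or.inl rfl
      · exact Or.inr h'
      · exact Or.inr h
      · exact Or.inr ⟨h.1, h'.2⟩

/-- The set `Y/A`. -/
def FMQ {Y : Type u} (A : Set Y) : Type u := Quotient (collapse A)

/-- the quotient map -/
def q {Y : Type u} (A : Set Y) (y : Y) : FMQ A := Quotient.mk (collapse A) y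

/-- The topology of `FMQ(Y, A, 𝒟_Y)`: `U` is open iff `q⁻¹(U)` is open in `Y` and, in case
`∗ ∈ U`, `q⁻¹(U)` is dense in `Y`. -/
instance {Y : Type u} [TopologicalSpace Y] (A : Set Y) : TopologicalSpace (FMQ A) where
  IsOpen U := IsOpen (q A ⁻¹' U) ∧ ((∃ a ∈ A, q A a ∈ U) → Dense (q A ⁻¹' U))
  isOpen_univ := ⟨isOpen_univ, fun _ => dense_univ⟩
  isOpen_inter := by
    rintro U V ⟨hU, hU'⟩ ⟨hV, hV'⟩
    refine ⟨hU.inter hV, ?_⟩
    rintro ⟨a, ha, haU, haV⟩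
    exact (hU' ⟨a, ha, haU⟩).inter_of_isOpen_left (hV' ⟨a, ha, haV⟩) hU
  isOpen_sUnion := by
    intro 𝒮 h𝒮
    refine ⟨?_, ?_⟩
    · rw [preimage_sUnion]
      exact isOpen_biUnion fun U hU => (h𝒮 U hU).1
    · rintro ⟨a, ha, U, hU, haU⟩
      exact ((h𝒮 U hU).2 ⟨a, ha, haU⟩).mono (preimage_mono (subset_sUnion_of_mem hU))

/-- `X` is `k₂`-Hausdorff: for every compact Hausdorff space `K` and every continuous `f : K → X`
the set `{(a, b) : f a = f b}` is closed in `K × K`. -/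
def IsK2Hausdorff (X : Type u) [TopologicalSpace X] : Prop :=
  ∀ (K : Type v) [TopologicalSpace K] [CompactSpace K] [T2Space K] (f : K → X), Continuous f →
    IsClosed {p : K × K | f p.1 = f p.2}

theorem q_eq {Y : Type u} {A : Set Y} {x y : Y} :
    q A x = q A y ↔ x = y ∨ (x ∈ A ∧ y ∈ A) := Quotient.eq

theorem isOpen_FMQ {Y : Type u} [TopologicalSpace Y] {A : Set Y} (U : Set (FMQ A)) :
    IsOpen U ↔ IsOpen (q A ⁻¹' U) ∧ ((∃ a ∈ A, q A a ∈ U) → Dense (q A ⁻¹' U)) := Iff.rfl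

/-- closure of a set of points from disjoint open sets is nowhere dense -/
theorem interior_closure_range {Y : Type u} [TopologicalSpace Y] [T1Space Y]
    (hY : ∀ y : Y, ¬ IsOpen ({y} : Set Y)) (C : ℕ → Set Y) (hC : ∀ n, IsOpen (C n))
    (hdisj : ∀ m n, m ≠ n → Disjoint (C m) (C n)) (y : ℕ → Y) (hy : ∀ n, y n ∈ C n) :
    interior (closure (range y)) = ∅ := by
  rw [eq_empty_iff_forall_notMem]
  intro z hz
  set W := interior (closure (range y)) with hW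
  have hWo : IsOpen W := isOpen_interior
  have hWc : W ⊆ closure (range y) := interior_subset
  obtain ⟨_, hyW, ⟨n, rfl⟩⟩ := mem_closure_iff.1 (hWc hz) W hWo hz
  have hO : IsOpen ((W ∩ C n) \ {y n}) := (hWo.inter (hC n)).sdiff isClosed_singleton
  have hne : ((W ∩ C n) \ {y n}).Nonempty := by
    by_contra hcon
    rw [not_nonempty_iff_eq_empty, sdiff_eq_empty] at hcon
    have h1 : W ∩ C n = {y n} :=
      Subset.antisymm hcon (singleton_subset_iff.2 ⟨hyW, hy n⟩)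
    exact hY (y n) (h1 ▸ hWo.inter (hC n))
  obtain ⟨w, hw⟩ := hne
  obtain ⟨_, hm, ⟨m, rfl⟩⟩ := mem_closure_iff.1 (hWc hw.1.1) _ hO hw
  by_cases hmn : m = n
  · subst hmn
    exact hm.2 rfl
  · exact (Set.disjoint_left.1 (hdisj m n hmn)) (hy m) hm.1.2

/-- the maximal disjoint family of open sets whose closures miss `y'` -/
theorem exists_family {Y : Type u} [TopologicalSpace Y] [T2Space Y]
    (hY : ∀ y : Y, ¬ IsOpen ({y} : Set Y)) (y' : Y) : ∃ 𝒞 : Set (Set Y),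
      (∀ C ∈ 𝒞, IsOpen C ∧ y' ∉ closure C) ∧ (∀ C ∈ 𝒞, ∀ D ∈ 𝒞, C ≠ D → Disjoint C D) ∧
      interior (⋃₀ 𝒞)ᶜ = ∅ := by
  obtain ⟨𝒞, hmax⟩ := zorn_subset {𝒞 : Set (Set Y) |
      (∀ C ∈ 𝒞, C.Nonempty ∧ IsOpen C ∧ y' ∉ closure C) ∧
      ∀ C ∈ 𝒞, ∀ D ∈ 𝒞, C ≠ D → Disjoint C D} (by
    intro c hc hchain
    refine ⟨⋃₀ c, ⟨?_, ?_⟩, fun s hs => subset_sUnion_of_mem hs⟩
    · rintro C ⟨𝒜, h𝒜, hC⟩
      exact (hc h𝒜).1 C hC
    · rintro C ⟨𝒜, h𝒜, hC⟩ D ⟨ℬ, hℬ, hD⟩ hCD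
      rcases hchain.total h𝒜 hℬ with h | h
      · exact (hc hℬ).2 C (h hC) D hD hCD
      · exact (hc h𝒜).2 C hC D (h hD) hCD)
  refine ⟨𝒞, fun C hC => (hmax.prop.1 C hC).2, hmax.prop.2, ?_⟩
  rw [eq_empty_iff_forall_notMem]
  intro z hz
  set W := interior (⋃₀ 𝒞)ᶜ with hW
  have hWo : IsOpen W := isOpen_interior
  -- a point of `W` different from `y'`
  obtain ⟨w, hwW, hwy⟩ : ∃ w ∈ W, w ≠ y' := by
    by_contra hcon
    push Not at hcon
    have h1 : W = {y'} := by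
      apply Subset.antisymm
      · intro w hw
        exact hcon w hw
      · rw [singleton_subset_iff, ← hcon z hz]
        exact hz
    exact hY y' (h1 ▸ hWo)
  obtain ⟨U, V, hU, hV, hwU, hyV, hUV⟩ := t2_separation hwy
  have hyU : y' ∉ closure (W ∩ U) := by
    intro h
    obtain ⟨x, hxV, hx⟩ := mem_closure_iff.1 h V hV hyV
    exact (Set.disjoint_left.1 hUV) hx.2 hxV
  have hdis : ∀ C ∈ 𝒞, Disjoint (W ∩ U) C := by
    intro C hC
    rw [Set.disjoint_left]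
    rintro x ⟨hxW, -⟩ hxC
    exact (interior_subset hxW) ⟨C, hC, hxC⟩
  have hins : insert (W ∩ U) 𝒞 ∈ {𝒞 : Set (Set Y) |
      (∀ C ∈ 𝒞, C.Nonempty ∧ IsOpen C ∧ y' ∉ closure C) ∧
      ∀ C ∈ 𝒞, ∀ D ∈ 𝒞, C ≠ D → Disjoint C D} := by
    refine ⟨?_, ?_⟩
    · rintro C (rfl | hC)
      · exact ⟨⟨w, hwW, hwU⟩, hWo.inter hU, hyU⟩
      · exact hmax.prop.1 C hC
    · rintro C (rfl | hC) D (rfl | hD) hCD
      · exact absurd rfl hCD
      · exact hdis D hD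
      · exact (hdis C hC).symm
      · exact hmax.prop.2 C hC D hD hCD
  have h2 : W ∩ U ∈ 𝒞 := hmax.le_of_ge hins (subset_insert _ _) (mem_insert _ _)
  exact (interior_subset hwW) ⟨W ∩ U, h2, hwW, hwU⟩

/-- The key separation: `φ` lifts a continuous map `K → FMQ A`. -/
theorem key {Y : Type u} [TopologicalSpace Y] [CompactSpace Y] [T2Space Y]
    (hY : ∀ y : Y, ¬ IsOpen ({y} : Set Y)) {A : Set Y} (hA : IsClosed A)
    {K : Type v} [TopologicalSpace K] [CompactSpace K] [T2Space K] (φ : K → Y)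
    (F1 : ∀ S : Set Y, IsOpen S → Disjoint S A → IsOpen (φ ⁻¹' S))
    (F2 : ∀ F : Set Y, IsClosed F → interior F = ∅ → Disjoint F A → IsClosed (φ ⁻¹' F))
    {a b : K} (ha : φ a ∉ A) (hb : φ b ∈ A) :
    ∃ U V : Set K, IsOpen U ∧ IsOpen V ∧ a ∈ U ∧ b ∈ V ∧ ∀ x ∈ U, ∀ y ∈ V, φ x ≠ φ y := by
  -- a neighbourhood of `φ a` whose closure misses `A`
  obtain ⟨V₀, hV₀, haV₀, hV₀A⟩ : ∃ V₀ : Set Y, IsOpen V₀ ∧ φ a ∈ V₀ ∧ Disjoint (closure V₀) A := by
    obtain ⟨V, hV, hVA⟩ := exists_mem_nhds_isClosed_subset (hA.isOpen_compl.mem_nhds ha)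
    refine ⟨interior V, isOpen_interior, mem_interior_iff_mem_nhds.2 hV, ?_⟩
    rw [Set.disjoint_left]
    intro y hy
    exact hVA.2 (closure_minimal interior_subset hVA.1 hy)
  by_contra hcon
  push Not at hcon
  set L : Set K := φ ⁻¹' (closure V₀) with hL
  -- `b` is in the closure of `L`
  have hbL : ∀ N : Set K, IsOpen N → b ∈ N → (N ∩ L).Nonempty := by
    intro N hN hbN
    obtain ⟨x, hx, y, hy, hxy⟩ := hcon (φ ⁻¹' V₀) N
      (F1 V₀ hV₀ (hV₀A.mono_left subset_closure)) hN haV₀ hbN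
    refine ⟨y, hy, ?_⟩
    show φ y ∈ closure V₀
    rw [← hxy]
    exact subset_closure hx
  have hcl : b ∈ closure L := mem_closure_iff.2 fun N hN hbN => hbL N hN hbN
  haveI hne : (𝓝 b ⊓ 𝓟 L).NeBot := mem_closure_iff_clusterPt.1 hcl
  obtain ⟨y', hy'⟩ := exists_clusterPt_of_compactSpace (map φ (𝓝 b ⊓ 𝓟 L))
  obtain ⟨𝒞, h𝒞, hdisj, hM⟩ := exists_family hY y'
  set M : Set Y := (⋃₀ 𝒞)ᶜ with hMdef
  have hMc : IsClosed M := (isOpen_sUnion fun C hC => (h𝒞 C hC).1).isClosed_compl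
  have hK₀ : IsClosed (φ ⁻¹' (M ∩ closure V₀)) := by
    apply F2 _ (hMc.inter isClosed_closure)
    · rw [interior_inter, hM, empty_inter]
    · exact hV₀A.mono_left inter_subset_right
  have hbK₀ : b ∈ (φ ⁻¹' (M ∩ closure V₀))ᶜ := fun h => (Set.disjoint_left.1 hV₀A) h.2 hb
  obtain ⟨N, hN, hNc, hNK₀⟩ := exists_mem_nhds_isClosed_subset (hK₀.isOpen_compl.mem_nhds hbK₀)
  -- on `L ∩ N` the map `φ` takes values in `⋃₀ 𝒞`
  have hcov : ∀ x ∈ L ∩ N, ∃ C ∈ 𝒞, φ x ∈ C := by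
    rintro x ⟨hxL, hxN⟩
    by_contra h
    push Not at h
    refine hNK₀ hxN ⟨?_, hxL⟩
    rintro ⟨C, hC, hxC⟩
    exact h C hC hxC
  -- only finitely many members are met
  have hfin : {C ∈ 𝒞 | ∃ x ∈ L ∩ N, φ x ∈ C}.Finite := by
    by_contra hinf
    let e := Set.Infinite.natEmbedding _ hinf
    have he1 : ∀ n, (e n : Set Y) ∈ 𝒞 := fun n => (e n).2.1
    have he2 : ∀ n, ∃ x ∈ L ∩ N, φ x ∈ (e n : Set Y) := fun n => (e n).2.2
    have hne' : ∀ m n, m ≠ n → (e m : Set Y) ≠ (e n : Set Y) := fun m n hmn h =>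
      hmn (e.injective (Subtype.ext h))
    choose x hxLN hxC using he2
    set F : Set Y := closure (range fun n => φ (x n)) with hF
    have hFV : F ⊆ closure V₀ := by
      apply closure_minimal _ isClosed_closure
      rintro _ ⟨n, rfl⟩
      exact (hxLN n).1
    have hFint : interior F = ∅ :=
      interior_closure_range hY (fun n => (e n : Set Y)) (fun n => (h𝒞 _ (he1 n)).1)
        (fun m n hmn => hdisj _ (he1 m) _ (he1 n) (hne' m n hmn)) (fun n => φ (x n)) hxC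
    have hFcl : IsClosed (φ ⁻¹' F) := F2 F isClosed_closure hFint (hV₀A.mono_left hFV)
    obtain ⟨z, hz⟩ := exists_clusterPt_of_compactSpace (map x atTop)
    have hz' : MapClusterPt z atTop x := hz
    have hzmem : ∀ T : Set K, IsClosed T → (∀ n, x n ∈ T) → z ∈ T := by
      intro T hT hxT
      by_contra hzT
      have h1 : ∃ᶠ n in atTop, x n ∈ Tᶜ := hz'.frequently (hT.isOpen_compl.mem_nhds hzT)
      obtain ⟨n, hn⟩ := h1.exists
      exact hn (hxT n)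
    have hzN : z ∈ N := hzmem N hNc fun n => (hxLN n).2
    have hzF : φ z ∈ F := hzmem (φ ⁻¹' F) hFcl fun n => subset_closure ⟨n, rfl⟩
    have hzL : z ∈ L := hFV hzF
    obtain ⟨C, hC, hzC⟩ := hcov z ⟨hzL, hzN⟩
    have hG : IsOpen (φ ⁻¹' (C \ A)) := F1 _ ((h𝒞 C hC).1.sdiff hA) disjoint_sdiff_left
    have hzG : z ∈ φ ⁻¹' (C \ A) := ⟨hzC, fun h => (Set.disjoint_left.1 hV₀A) hzL h⟩
    have h1 : ∃ᶠ n in atTop, x n ∈ φ ⁻¹' (C \ A) := hz'.frequently (hG.mem_nhds hzG)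
    have h2 : ∀ n, x n ∈ φ ⁻¹' (C \ A) → (e n : Set Y) = C := by
      intro n hn
      by_contra hne'
      exact (Set.disjoint_left.1 (hdisj _ (he1 n) C hC hne')) (hxC n) hn.1
    obtain ⟨n, hn⟩ := h1.exists
    obtain ⟨m, hm, hm'⟩ := frequently_atTop.1 h1 (n + 1)
    exact hne' m n (by omega) ((h2 m hm').trans (h2 n hn).symm)
  -- hence `y'` is in the closure of one of them
  have hy2 : y' ∈ closure (⋃ C ∈ {C ∈ 𝒞 | ∃ x ∈ L ∩ N, φ x ∈ C}, C) := by
    rw [mem_closure_iff]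
    intro O hO hyO
    have h1 : ∃ᶠ x in 𝓝 b ⊓ 𝓟 L, φ x ∈ O := hy'.frequently (hO.mem_nhds hyO)
    have h2 : ∀ᶠ x in 𝓝 b ⊓ 𝓟 L, x ∈ N ∧ x ∈ L :=
      Filter.Eventually.and (Filter.mem_inf_of_left hN)
        (Filter.mem_inf_of_right (mem_principal_self L))
    obtain ⟨x, hxO, hxN, hxL⟩ := (h1.and_eventually h2).exists
    obtain ⟨C, hC, hxC⟩ := hcov x ⟨hxL, hxN⟩
    exact ⟨φ x, hxO, mem_iUnion₂.2 ⟨C, ⟨hC, x, ⟨hxL, hxN⟩, hxC⟩, hxC⟩⟩
  rw [hfin.closure_biUnion] at hy2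
  obtain ⟨C, hC, hyC⟩ := mem_iUnion₂.1 hy2
  exact (h𝒞 C hC.1).2 hyC

/-- **Main theorem.** If `Y` is compact Hausdorff without isolated points and `A ⊆ Y` is closed,
then `FMQ(Y, A, 𝒟_Y)` is `k₂`-Hausdorff. -/
theorem main {Y : Type u} [TopologicalSpace Y] [CompactSpace Y] [T2Space Y]
    (hY : ∀ y : Y, ¬ IsOpen ({y} : Set Y)) {A : Set Y} (hA : IsClosed A) :
    IsK2Hausdorff.{u, v} (FMQ A) := by
  intro K _ _ _ f hf
  -- lift `f`
  let φ : K → Y := fun x => (f x).out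
  have hφ : ∀ x, q A (φ x) = f x := fun x => Quotient.out_eq (f x)
  have hpre : ∀ (S : Set Y) (x : K), Disjoint S A → (f x ∈ q A '' S ↔ φ x ∈ S) := by
    intro S x hS
    constructor
    · rintro ⟨y, hy, hyx⟩
      rw [← hφ x, q_eq] at hyx
      rcases hyx with h | ⟨h, -⟩
      · rwa [← h]
      · exact absurd h ((Set.disjoint_left.1 hS) hy)
    · intro h
      exact ⟨φ x, h, hφ x⟩
  have hqq : ∀ S : Set Y, Disjoint S A → q A ⁻¹' (q A '' S) = S := by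
    intro S hS
    apply Subset.antisymm
    · rintro x ⟨y, hy, hyx⟩
      rcases q_eq.1 hyx with h | ⟨h, -⟩
      · rwa [← h]
      · exact absurd h ((Set.disjoint_left.1 hS) hy)
    · exact subset_preimage_image _ _
  have F1 : ∀ S : Set Y, IsOpen S → Disjoint S A → IsOpen (φ ⁻¹' S) := by
    intro S hS hSA
    have h1 : φ ⁻¹' S = f ⁻¹' (q A '' S) := by
      ext x
      exact (hpre S x hSA).symm
    rw [h1]
    apply IsOpen.preimage hf
    rw [isOpen_FMQ, hqq S hSA]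
    refine ⟨hS, ?_⟩
    rintro ⟨a, ha, y, hy, hya⟩
    rcases q_eq.1 hya with h | ⟨h, -⟩
    · exact absurd (h ▸ ha) ((Set.disjoint_left.1 hSA) hy)
    · exact absurd h ((Set.disjoint_left.1 hSA) hy)
  have F2 : ∀ F : Set Y, IsClosed F → interior F = ∅ → Disjoint F A → IsClosed (φ ⁻¹' F) := by
    intro F hF hFint hFA
    have h1 : (φ ⁻¹' F)ᶜ = f ⁻¹' (q A '' F)ᶜ := by
      ext x
      rw [mem_compl_iff, mem_preimage, mem_preimage, mem_compl_iff, hpre F x hFA]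
    rw [← isOpen_compl_iff, h1]
    apply IsOpen.preimage hf
    rw [isOpen_FMQ, preimage_compl, hqq F hFA]
    exact ⟨hF.isOpen_compl, fun _ => interior_eq_empty_iff_dense_compl.1 hFint⟩
  have hφf : ∀ x y, f x = f y ↔ φ x = φ y := by
    intro x y
    constructor
    · intro h
      show (f x).out = (f y).out
      rw [h]
    · intro h
      rw [← hφ x, ← hφ y, h]
  rw [← isOpen_compl_iff, isOpen_prod_iff]
  intro a b hab
  have hab' : f a ≠ f b := hab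
  by_cases ha : φ a ∈ A
  · by_cases hb : φ b ∈ A
    · exfalso
      apply hab'
      rw [← hφ a, ← hφ b, q_eq]
      exact Or.inr ⟨ha, hb⟩
    · obtain ⟨U, V, hU, hV, hbU, haV, h⟩ := key hY hA φ F1 F2 hb ha
      refine ⟨V, U, hV, hU, haV, hbU, ?_⟩
      rintro ⟨x, y⟩ ⟨hx, hy⟩ hxy
      exact h y hy x hx ((hφf y x).1 (Eq.symm hxy))
  · by_cases hb : φ b ∈ A
    · obtain ⟨U, V, hU, hV, haU, hbV, h⟩ := key hY hA φ F1 F2 ha hb
      refine ⟨U, V, hU, hV, haU, hbV, ?_⟩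
      rintro ⟨x, y⟩ ⟨hx, hy⟩ hxy
      exact h x hx y hy ((hφf x y).1 hxy)
    · have hne : φ a ≠ φ b := fun h => hab' ((hφf a b).2 h)
      obtain ⟨U, V, hU, hV, haU, hbV, hUV⟩ := t2_separation hne
      refine ⟨φ ⁻¹' (U \ A), φ ⁻¹' (V \ A), F1 _ (hU.sdiff hA) disjoint_sdiff_left,
        F1 _ (hV.sdiff hA) disjoint_sdiff_left, ⟨haU, ha⟩, ⟨hbV, hb⟩, ?_⟩
      rintro ⟨x, y⟩ ⟨hx, hy⟩ hxy
      have h1 := (hφf x y).1 hxy
      have hx' : φ x ∈ U := hx.1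
      have hy' : φ y ∈ V := hy.1
      rw [h1] at hx'
      exact (Set.disjoint_left.1 hUV) hx' hy'

/-- **MP_a8a70f_gt, Q1 (proved).** For every nonempty finite `A ⊆ ω*` the space `X_A` is
`k₂`-Hausdorff. More generally this holds for `FMQ(Y, A, 𝒟_Y)` whenever `Y` is a compact Hausdorff
space without isolated points and `A ⊆ Y` is nonempty and closed. -/
theorem result :
    (∀ A : Set OmegaStar, A.Finite → A.Nonempty → IsK2Hausdorff.{0, v} (FMQ A)) ∧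
    ∀ (Y : Type u) [TopologicalSpace Y] [CompactSpace Y] [T2Space Y],
      (∀ y : Y, ¬ IsOpen ({y} : Set Y)) → ∀ A : Set Y, A.Nonempty → IsClosed A →
        IsK2Hausdorff.{u, v} (FMQ A) := by
  refine ⟨fun A hA _ => main not_isOpen_singleton hA.isClosed, ?_⟩
  intro Y _ _ _ hY A _ hA
  exact main hY hA

end Pool.Agent.Results.MP_a8a70f_gt.K2Hausdorff
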